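import Pool.Agent.W620.BM.Main
import Pool.Agent.W620.BM.Tors
import Pool.Agent.W620.BM.Geom

/-!
# The Brauer-Manin set is not contained in the descent set for extensions of finite abelian groups
# by tori

Let `k = ℚ`, let `T = SO₂` be the norm one torus of `ℚ(i)/ℚ` and let `F = μ₂ × μ₂ = (ℤ/2)²` act on
`T⁴` by permuting the factors simply transitively.  Put `G = T⁴ ⋊ F`.  So `G° = T⁴` is a torus and
`G/G° = F` is finite and commutative.  Torsors under `G` over a field `K` are given by
`d₁, d₂ ∈ K^*` and an invertible element `t` of `L = K(√d₁, √d₂)` up to norms from `L(i)`.  This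
leads to the variety `X` of all `(d₁, d₂, t)`, an open subvariety of the affine space of dimension
six, and to a torsor `f : Y → X` under `G`.

Let `P_p = (1, 1, 1)` for all primes `p` and `P_∞ = (1, 1, -1)`.

* `P` does not lie in `X(𝔸)^f`.  A class in `H¹(ℚ, G)` with the local components `f(P_v)` would have
  trivial image in `H¹(ℚ, F)`, so it would come from a rational number `τ` which is a norm from
  `ℚ_p(i)` for all `p` and is negative.
* `P` lies in `X(𝔸)^Br`.  As `(1, 1, 1)` is a rational point, we must show that an Azumaya algebra `B`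
  on `X` has isomorphic fibres at the real points `(1, 1, 1)` and `(1, 1, -1)`.  Pull back `B` to the
  torus of dimension six with the coordinates `y₁ = √d₁`, `y₂ = √d₂` and the four conjugates of `t`.
  The real points of the torus have 64 components, and the class of the fibres of `B` gives a
  function on `𝔽₂⁶` which is a polynomial of degree at most two.  It is invariant under the
  Galois group `F` of the cover, and this implies that it takes the same value at the two points.
-/

open scoped TensorProduct
open Pool.Agent.W620.BM

namespace Pool.Agent.Results.MP_be3542_nt.Disproof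

/-- `X` is smooth over `ℚ` and geometrically integral. -/
def IsSmoothGeometricallyIntegral : Prop :=
  Algebra.Smooth ℚ CoordRing ∧
    ∀ (K : Type) [Field K] [Algebra ℚ K], IsDomain (CoordRing ⊗[ℚ] K)

/-- For all `ℚ`-algebras `A` the sequence `1 → SO₂(A)⁴ → G(A) → μ₂(A) × μ₂(A) → 1` is exact.  So `G`
is an extension of the finite commutative group `μ₂ × μ₂` by the torus `SO₂⁴`. -/
def IsExtension : Prop :=
  ∀ (A : Type) [CommRing A] [Algebra ℚ A], Function.Injective (fromSO A) ∧
    Function.MulExact (fromSO A) (toMu2 A) ∧ Function.Surjective (toMu2 A)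

/-- `G` acts on `Y` from the right. -/
def IsAction : Prop :=
  ∀ (A : Type) [CommRing A] (y : YPoint A) (γ γ' : GPoint A),
    y.act 1 = y ∧ y.act (γ * γ') = (y.act γ).act γ'

/-- The group structure, the action and the relation `Over` are functorial. -/
def IsFunctorial : Prop :=
  ∀ (A A' : Type) [CommRing A] [CommRing A'] (h : A →+* A') (P : XPoint A) (y : YPoint A)
    (γ γ' : GPoint A), (γ * γ').map h = γ.map h * γ'.map h ∧
    (y.act γ).map h = (y.map h).act (γ.map h) ∧ (Over y P → Over (y.map h) (h.comp P))

/-- `Y → X` is a torsor under `G`: `G(A)` acts simply transitively on the fibres of `Y(A) → X(A)`,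
for all `ℚ`-algebras `A`, and every point of `X(A)` lifts to `Y(A')` for a finite faithfully flat
extension `A'` of `A`. -/
def IsTorsor : Prop :=
  IsAction ∧ IsFunctorial ∧ ∀ (A : Type) [CommRing A] [Algebra ℚ A] (P : XPoint A),
    (∀ y, Over y P → ∀ γ, Over (y.act γ) P) ∧
    (∀ y y', Over y P → Over y' P → ∃! γ : GPoint A, y' = y.act γ) ∧
    ∃ (A' : Type) (_ : CommRing A') (_ : Algebra A A'), Module.FaithfullyFlat A A' ∧
      Module.Finite A A' ∧ ∃ y : YPoint A', Over y ((algebraMap A A').comp P)

/-- There are a smooth and geometrically integral variety `X` over `ℚ`, a linear algebraic group `G`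
which is an extension of the finite commutative group `μ₂ × μ₂` by the torus `SO₂⁴`, a torsor
`f : Y → X` under `G` and an adelic point of `X` which lies in `X(𝔸)^Br` and not in `X(𝔸)^f`. -/
theorem result : IsSmoothGeometricallyIntegral ∧ IsExtension ∧ IsTorsor ∧
    ∃ P : AdelicPoint, InBrauerManinSet P ∧ ¬ InDescentSet P := by
  refine ⟨⟨coordRing_smooth, fun K _ _ => coordRing_geom_integral K⟩, ?_, ⟨?_, ?_, ?_⟩,
    adPt, main⟩
  · intro A _ _
    exact ⟨fromSO_injective, exact_G, toMu2_surjective⟩
  · intro A _ y γ γ'
    exact ⟨act_one y, act_mul y γ γ'⟩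
  · intro A A' _ _ h P y γ γ'
    exact ⟨GPoint.map_mul _ γ γ', YPoint.map_act _ y γ, over_map _⟩
  · intro A _ _ P
    exact ⟨fun y h γ => act_over h γ, fun y y' h h' => act_transitive h h', local_surjective A P⟩

end Pool.Agent.Results.MP_be3542_nt.Disproof
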